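import Pool.Agent.W845.DH.Stm

set_option autoImplicit false
open scoped Classical

namespace Pool.Agent.W52.DH

open Pool.Agent.W845.DH

theorem conx : S_CONX := by
  intro V _ γ D m hγ hγ4 hloop hdeg hrob
  set n : ℝ := (Fintype.card V : ℝ) with hn
  have hn0 : 0 ≤ n := by rw [hn]; positivity
  have hout : ∀ u : V, (1 / 2 - γ / 2) * n ≤ ((Finset.univ.filter (fun x => D u x)).card : ℝ) := by
    intro u
    exact (hdeg u).1
  have hin : ∀ w : V, (1 / 2 - γ / 2) * n ≤ ((Finset.univ.filter (fun x => D x w)).card : ℝ) := by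
    intro w
    exact (hdeg w).2
  have hle : (1 / 2 - γ) * n ≤ (1 / 2 - γ / 2) * n := by
    apply mul_le_mul_of_nonneg_right _ hn0
    linarith
  refine ⟨?_, ?_, ?_⟩
  · intro hm u w Z hZ
    have hZ' : (Z.card : ℝ) ≤ γ / 2 * n := by
      have : (Z.card : ℝ) ≤ (m : ℝ) := by exact_mod_cast hZ
      linarith
    have key : ∀ A : Finset V, (1 / 2 - γ / 2) * n ≤ (A.card : ℝ) →
        (1 / 2 - γ) * n ≤ ((A \ Z).card : ℝ) := by
      intro A hA
      have h1 : A.card ≤ (A \ Z).card + Z.card := by
        have := Finset.le_card_sdiff Z A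
        omega
      have h2 : (A.card : ℝ) ≤ ((A \ Z).card : ℝ) + (Z.card : ℝ) := by exact_mod_cast h1
      nlinarith
    have hR := hrob ((Finset.univ.filter (fun x => D u x)) \ Z)
      ((Finset.univ.filter (fun x => D x w)) \ Z) (key _ (hout u)) (key _ (hin w))
    have hpos : (0 : ℝ) < (ee D ((Finset.univ.filter (fun x => D u x)) \ Z)
      ((Finset.univ.filter (fun x => D x w)) \ Z) : ℝ) := by
      refine lt_of_le_of_lt ?_ hR
      positivity
    have hpos' : 0 < ee D ((Finset.univ.filter (fun x => D u x)) \ Z)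
      ((Finset.univ.filter (fun x => D x w)) \ Z) := by exact_mod_cast hpos
    unfold ee at hpos'
    obtain ⟨e, he⟩ := Finset.card_pos.mp hpos'
    rw [Finset.mem_filter, Finset.mem_product, Finset.mem_sdiff, Finset.mem_sdiff,
      Finset.mem_filter, Finset.mem_filter] at he
    obtain ⟨⟨⟨⟨_, h1⟩, h2⟩, ⟨_, h3⟩, h4⟩, h5⟩ := he
    refine ⟨e.1, e.2, h2, h4, ?_, h1, h5, h3⟩
    intro heq
    rw [← heq] at h5
    exact hloop _ h5
  · intro u w
    have hR := hrob (Finset.univ.filter (fun x => D u x)) (Finset.univ.filter (fun x => D x w))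
      (hle.trans (hout u)) (hle.trans (hin w))
    refine le_trans hR.le ?_
    unfold ee
    have hcard : (((Finset.univ.filter (fun x => D u x)) ×ˢ
      (Finset.univ.filter (fun x => D x w))).filter (fun e : V × V => D e.1 e.2)).card ≤
      (Finset.univ.filter (fun e : V × V => D u e.1 ∧ D e.1 e.2 ∧ D e.2 w)).card := by
      apply Finset.card_le_card
      intro e he
      rw [Finset.mem_filter, Finset.mem_product, Finset.mem_filter, Finset.mem_filter] at he
      rw [Finset.mem_filter]
      exact ⟨Finset.mem_univ _, he.1.1.2, he.2, he.1.2.2⟩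
    exact_mod_cast hcard
  · intro v
    have hR := hrob (Finset.univ.filter (fun x => D x v)) (Finset.univ.filter (fun x => D v x))
      (hle.trans (hin v)) (hle.trans (hout v))
    refine le_trans hR.le ?_
    unfold ee
    have hcard : (((Finset.univ.filter (fun x => D x v)) ×ˢ
      (Finset.univ.filter (fun x => D v x))).filter (fun e : V × V => D e.1 e.2)).card ≤
      (Finset.univ.filter (fun e : V × V => D e.1 v ∧ D e.1 e.2 ∧ D v e.2)).card := by
      apply Finset.card_le_card
      intro e he
      rw [Finset.mem_filter, Finset.mem_product, Finset.mem_filter, Finset.mem_filter] at he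
      rw [Finset.mem_filter]
      exact ⟨Finset.mem_univ _, he.1.1.2, he.2, he.1.2.2⟩
    exact_mod_cast hcard

end Pool.Agent.W52.DH
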