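import Pool.Agent.W845.DH.Stm

set_option autoImplicit false
open scoped Classical

namespace Pool.Agent.W52.DH

open Pool.Agent.W845.DH

theorem fac : S_FAC := by
  intro V _ γ D hγ hdeg hrob
  set n : ℝ := (Fintype.card V : ℝ) with hn
  have hhall : ∀ X : Finset V, X.card ≤ (X.biUnion (fun v => Finset.univ.filter (fun w => D v w))).card := by
    intro X
    by_contra hlt
    rw [not_le] at hlt
    set N := X.biUnion (fun v => Finset.univ.filter (fun w => D v w)) with hN
    have hXpos : 0 < X.card := by omega
    obtain ⟨v, hv⟩ := Finset.card_pos.mp hXpos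
    have h1 : (Finset.univ.filter (fun w => D v w)) ⊆ N := by
      intro w hw
      rw [hN, Finset.mem_biUnion]
      exact ⟨v, hv, hw⟩
    have h2 : (1 / 2 - γ) * n ≤ ((Finset.univ.filter (fun w => D v w)).card : ℝ) := (hdeg v).1
    have h3 : ((Finset.univ.filter (fun w => D v w)).card : ℝ) ≤ (N.card : ℝ) := by
      exact_mod_cast Finset.card_le_card h1
    have h4 : (N.card : ℝ) < (X.card : ℝ) := by exact_mod_cast hlt
    have hX : (1 / 2 - γ) * n ≤ (X.card : ℝ) := by linarith
    have hXn : X.card ≤ Fintype.card V := Finset.card_le_univ X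
    have hYc : (Nᶜ).card = Fintype.card V - N.card := Finset.card_compl N
    have hXc : (Xᶜ).card = Fintype.card V - X.card := Finset.card_compl X
    have hYpos : 0 < (Nᶜ).card := by omega
    obtain ⟨y, hy⟩ := Finset.card_pos.mp hYpos
    rw [Finset.mem_compl] at hy
    have h5 : (Finset.univ.filter (fun w => D w y)) ⊆ Xᶜ := by
      intro w hw
      rw [Finset.mem_filter] at hw
      rw [Finset.mem_compl]
      intro hwX
      apply hy
      rw [hN, Finset.mem_biUnion]
      refine ⟨w, hwX, ?_⟩
      rw [Finset.mem_filter]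
      exact ⟨Finset.mem_univ _, hw.2⟩
    have h6 : (1 / 2 - γ) * n ≤ ((Finset.univ.filter (fun w => D w y)).card : ℝ) := (hdeg y).2
    have h7 : ((Finset.univ.filter (fun w => D w y)).card : ℝ) ≤ ((Xᶜ).card : ℝ) := by
      exact_mod_cast Finset.card_le_card h5
    have h8 : (Xᶜ).card ≤ (Nᶜ).card := by omega
    have h9 : ((Xᶜ).card : ℝ) ≤ ((Nᶜ).card : ℝ) := by exact_mod_cast h8
    have hR := hrob X Nᶜ hX (by linarith)
    have hzero : ee D X Nᶜ = 0 := by
      unfold ee
      rw [Finset.card_eq_zero, Finset.filter_eq_empty_iff]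
      intro e he hD
      rw [Finset.mem_product, Finset.mem_compl] at he
      apply he.2
      rw [hN, Finset.mem_biUnion]
      refine ⟨e.1, he.1, ?_⟩
      rw [Finset.mem_filter]
      exact ⟨Finset.mem_univ _, hD⟩
    rw [hzero] at hR
    have h10 : 0 ≤ γ * (Fintype.card V : ℝ) ^ 2 := by positivity
    rw [Nat.cast_zero] at hR
    linarith
  obtain ⟨f, hf, hf2⟩ := (Finset.all_card_le_biUnion_card_iff_exists_injective
    (fun v => Finset.univ.filter (fun w => D v w))).mp hhall
  have hb : Function.Bijective f := Finite.injective_iff_bijective.mp hf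
  refine ⟨Equiv.ofBijective f hb, ?_⟩
  intro v
  have := hf2 v
  rw [Finset.mem_filter] at this
  exact this.2

end Pool.Agent.W52.DH
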